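import Pool.Agent.H14.L1.Targets

/-!
The algebra at the end (row ALG).
-/

set_option autoImplicit false

namespace Pool.Agent.H5.L1C

open Pool.Agent.H14.L1

theorem pf_ALG : T_ALG := by
  intro A _ _ α β hne hab hba haa hbb I hI
  refine le_antisymm ?_ ?_
  · refine Submodule.span_le.2 ?_
    rintro _ ⟨a, ha, b, hb, rfl⟩
    rw [SetLike.mem_coe, hI, map_mul, map_mul, ((hI a).1 ha).1, ((hI a).1 ha).2, zero_mul,
      zero_mul]
    exact ⟨rfl, rfl⟩
  · intro f hf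
    obtain ⟨hfa, hfb⟩ := (hI f).1 hf
    obtain ⟨e, he1, he0⟩ : ∃ e : A, α e = 1 ∧ β e = 0 := by
      obtain ⟨x, hx⟩ : ∃ x, α x ≠ β x := by
        by_contra hcon
        push Not at hcon
        exact hne (AlgHom.ext hcon)
      refine ⟨(α x - β x)⁻¹ • (x - algebraMap ℂ A (β x)), ?_, ?_⟩
      · rw [map_smul, map_sub, AlgHom.commutes, smul_eq_mul]
        exact inv_mul_cancel₀ (sub_ne_zero.2 hx)
      · rw [map_smul, map_sub, AlgHom.commutes, smul_eq_mul]
        have : β x - (algebraMap ℂ ℂ) (β x) = 0 := sub_self _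
        rw [this, mul_zero]
    have g1 : α (1 - e) = 0 := by rw [map_sub, map_one, he1, sub_self]
    have g0 : β (1 - e) = 1 := by rw [map_sub, map_one, he0, sub_zero]
    have hmem : ∀ a b : A, α a = 0 → β a = 0 → α b = 0 → β b = 0 →
        a * b ∈ Submodule.span ℂ {h | ∃ a ∈ I, ∃ b ∈ I, h = a * b} := fun a b h1 h2 h3 h4 =>
      Submodule.subset_span ⟨a, (hI a).2 ⟨h1, h2⟩, b, (hI b).2 ⟨h3, h4⟩, rfl⟩
    have hdec : f = e * f * e + e * f * (1 - e) + (1 - e) * f * e + (1 - e) * f * (1 - e) := by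
      noncomm_ring
    rw [hdec]
    refine add_mem (add_mem (add_mem ?_ ?_) ?_) ?_
    · obtain ⟨y, b, b', y', h, hy1, hy2, hy'1, hy'2, hb, hb'⟩ := haa f hfa hfa
      have h1 : e * f * e = (e * y) * (b * e) + (e * b') * (y' * e) := by
        rw [h]
        noncomm_ring
      rw [h1]
      refine add_mem (hmem _ _ ?_ ?_ ?_ ?_) (hmem _ _ ?_ ?_ ?_ ?_) <;>
        simp [map_mul, hy1, hy2, hy'1, hy'2, hb, hb', he1, he0]
    · obtain ⟨y, b, b', y', h, hy1, hy2, hy'1, hy'2, hb, hb'⟩ := hab f hfa hfb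
      have h1 : e * f * (1 - e) = (e * y) * (b * (1 - e)) + (e * b') * (y' * (1 - e)) := by
        rw [h]
        noncomm_ring
      rw [h1]
      refine add_mem (hmem _ _ ?_ ?_ ?_ ?_) (hmem _ _ ?_ ?_ ?_ ?_) <;>
        simp [map_mul, hy1, hy2, hy'1, hy'2, hb, hb', he1, he0]
    · obtain ⟨y, b, b', y', h, hy1, hy2, hy'1, hy'2, hb, hb'⟩ := hba f hfb hfa
      have h1 : (1 - e) * f * e = ((1 - e) * y) * (b * e) + ((1 - e) * b') * (y' * e) := by
        rw [h]
        noncomm_ring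
      rw [h1]
      refine add_mem (hmem _ _ ?_ ?_ ?_ ?_) (hmem _ _ ?_ ?_ ?_ ?_) <;>
        simp [map_mul, hy1, hy2, hy'1, hy'2, hb, hb', he1, he0]
    · obtain ⟨y, b, b', y', h, hy1, hy2, hy'1, hy'2, hb, hb'⟩ := hbb f hfb hfb
      have h1 : (1 - e) * f * (1 - e) =
          ((1 - e) * y) * (b * (1 - e)) + ((1 - e) * b') * (y' * (1 - e)) := by
        rw [h]
        noncomm_ring
      rw [h1]
      refine add_mem (hmem _ _ ?_ ?_ ?_ ?_) (hmem _ _ ?_ ?_ ?_ ?_) <;>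
        simp [map_mul, hy1, hy2, hy'1, hy'2, hb, hb', he1, he0]

end Pool.Agent.H5.L1C
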