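import Pool.Agent.H14.L1.Targets

/-!
Cesaro means (row CES).
-/

set_option autoImplicit false

namespace Pool.Agent.H5.L1C

open Pool.Agent.H14.L1 Filter Topology

theorem pf_CES : T_CES := by
  intro A _ _ _ q hq c hc
  have hpow : ∀ j : ℕ, ‖q ^ j‖ ≤ 1 := fun j =>
    (norm_pow_le q j).trans (pow_le_one₀ (norm_nonneg q) hq)
  have hn0 : ∀ n : ℕ, (0 : ℝ) < (n : ℝ) + 1 := fun n => by positivity
  have hnc : ∀ n : ℕ, ‖((n : ℂ) + 1)⁻¹‖ = ((n : ℝ) + 1)⁻¹ := fun n => by
    rw [norm_inv]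
    congr 1
    have h1 : ((n : ℂ) + 1) = (((n : ℝ) + 1 : ℝ) : ℂ) := by push_cast; rfl
    rw [h1, Complex.norm_real, Real.norm_eq_abs, abs_of_pos (hn0 n)]
  have hnz : ∀ n : ℕ, ((n : ℂ) + 1) ≠ 0 := fun n => by
    have h1 : ((n : ℂ) + 1) = (((n + 1 : ℕ)) : ℂ) := by push_cast; rfl
    rw [h1]
    exact Nat.cast_ne_zero.2 (Nat.succ_ne_zero n)
  have hsum : ∀ n : ℕ, ‖∑ j ∈ Finset.range (n + 1), q ^ j‖ ≤ (n : ℝ) + 1 := fun n => by
    refine (norm_sum_le _ _).trans ?_
    refine (Finset.sum_le_sum fun j _ => hpow j).trans ?_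
    simp
  have hnorm : ∀ n, ‖c n‖ ≤ 1 := fun n => by
    rw [hc n, norm_smul, hnc n, inv_mul_le_iff₀ (hn0 n), mul_one]
    exact hsum n
  have hcomm : ∀ n : ℕ, Commute q (c n) := fun n => by
    rw [hc n]
    refine Commute.smul_right (Commute.sum_right _ _ _ fun j _ => ?_) _
    exact (Commute.refl q).pow_right j
  have hcc : ∀ m n, c m * c n = c n * c m := fun m n => by
    have h1 : Commute (c m) (c n) := by
      rw [hc m]
      refine Commute.smul_left (Commute.sum_left _ _ _ fun j _ => ?_) _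
      exact (hcomm n).pow_left j
    exact h1
  have hdiff : ∀ n, ‖q * c n - c n‖ ≤ 2 / ((n : ℝ) + 1) := fun n => by
    have h1 : q * c n - c n = ((n : ℂ) + 1)⁻¹ • (q ^ (n + 1) - 1) := by
      rw [← mul_geom_sum q (n + 1), hc n, mul_smul_comm, ← smul_sub, sub_mul, one_mul]
    rw [h1, norm_smul, hnc n, inv_mul_eq_div]
    refine div_le_div_of_nonneg_right ?_ (hn0 n).le
    refine (norm_sub_le _ _).trans ?_
    rw [norm_one]
    linarith [hpow (n + 1)]
  have hj : ∀ j k : ℕ, ‖(1 - q ^ j) * c k‖ ≤ 2 * j / ((k : ℝ) + 1) := by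
    intro j k
    induction j with
    | zero => simp
    | succ j ih =>
      have h1 : (1 - q ^ (j + 1)) * c k = (1 - q ^ j) * c k - q ^ j * (q * c k - c k) := by
        rw [pow_succ, sub_mul, sub_mul, mul_sub, mul_assoc]
        abel
      rw [h1]
      refine (norm_sub_le _ _).trans ?_
      have h2 : ‖q ^ j * (q * c k - c k)‖ ≤ 2 / ((k : ℝ) + 1) := by
        refine (norm_mul_le _ _).trans ?_
        exact (mul_le_of_le_one_left (norm_nonneg _) (hpow j)).trans (hdiff k)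
      refine (add_le_add ih h2).trans (le_of_eq ?_)
      push_cast
      ring
  refine ⟨hnorm, hcc, fun n => hcomm n, hdiff, fun m => ?_, fun φ hφ n => ?_⟩
  · have hm : ∀ k : ℕ, ‖(1 - c m) * c k‖ ≤ 2 * ((m : ℝ) + 1) * (1 / ((k : ℝ) + 1)) := by
      intro k
      have h1 : (1 - c m) = ((m : ℂ) + 1)⁻¹ • ∑ j ∈ Finset.range (m + 1), (1 - q ^ j) := by
        rw [Finset.sum_sub_distrib, smul_sub, ← hc m]
        congr 1
        rw [Finset.sum_const, Finset.card_range, ← Nat.cast_smul_eq_nsmul ℂ, smul_smul]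
        push_cast
        rw [inv_mul_cancel₀ (hnz m), one_smul]
      rw [h1, smul_mul_assoc, Finset.sum_mul, norm_smul, hnc m]
      have h2 : ‖∑ j ∈ Finset.range (m + 1), (1 - q ^ j) * c k‖ ≤
          ((m : ℝ) + 1) * (2 * ((m : ℝ) + 1) / ((k : ℝ) + 1)) := by
        refine (norm_sum_le _ _).trans ?_
        have h3 : ∀ j ∈ Finset.range (m + 1), ‖(1 - q ^ j) * c k‖ ≤
            2 * ((m : ℝ) + 1) / ((k : ℝ) + 1) := fun j hj' => by
          refine (hj j k).trans ?_
          refine div_le_div_of_nonneg_right ?_ (hn0 k).le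
          have h4 : (j : ℝ) ≤ m := by
            exact_mod_cast Nat.lt_succ_iff.1 (Finset.mem_range.1 hj')
          linarith
        refine (Finset.sum_le_sum h3).trans ?_
        rw [Finset.sum_const, Finset.card_range, nsmul_eq_mul]
        push_cast
        exact le_rfl
      have h5 : ((m : ℝ) + 1)⁻¹ * ‖∑ j ∈ Finset.range (m + 1), (1 - q ^ j) * c k‖ ≤
          ((m : ℝ) + 1)⁻¹ * (((m : ℝ) + 1) * (2 * ((m : ℝ) + 1) / ((k : ℝ) + 1))) :=
        mul_le_mul_of_nonneg_left h2 (by positivity)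
      refine h5.trans (le_of_eq ?_)
      have h6 := (hn0 m).ne'
      have h7 := (hn0 k).ne'
      field_simp
    refine squeeze_zero_norm hm ?_
    have h8 := (tendsto_one_div_add_atTop_nhds_zero_nat (𝕜 := ℝ)).const_mul
      (2 * ((m : ℝ) + 1))
    rwa [mul_zero] at h8
  · rw [hc n, map_smul, map_sum]
    simp only [map_pow, hφ, one_pow, Finset.sum_const, Finset.card_range, nsmul_eq_mul, mul_one,
      smul_eq_mul]
    push_cast
    exact inv_mul_cancel₀ (hnz n)

end Pool.Agent.H5.L1C
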