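import Pool.Agent.H14.L1.Targets

/-!
The decomposition (row DEC).
-/

set_option autoImplicit false

namespace Pool.Agent.H5.L1C

open Pool.Agent.H14.L1 Filter Topology

/-- limits of sums of elements which are killed asymptotically by contractions -/
theorem kill {A : Type} [NormedRing A] (T : ℕ → A →+ A) (hT : ∀ k x, ‖T k x‖ ≤ ‖x‖)
    (x : ℕ → A) (l : A) (hl : HasSum x l) (hx : ∀ i, Tendsto (fun k => T k (x i)) atTop (𝓝 0)) :
    Tendsto (fun k => T k l) atTop (𝓝 0) := by
  rw [Metric.tendsto_atTop]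
  intro ε hε
  have h1 := Metric.tendsto_atTop.1 hl.tendsto_sum_nat (ε / 2) (by positivity)
  obtain ⟨N, hN⟩ := h1
  have h2 : Tendsto (fun k => T k (∑ i ∈ Finset.range N, x i)) atTop (𝓝 0) := by
    have h3 : Tendsto (fun k => ∑ i ∈ Finset.range N, T k (x i)) atTop
        (𝓝 (∑ _i ∈ Finset.range N, (0 : A))) := tendsto_finsetSum _ fun i _ => hx i
    rw [Finset.sum_const_zero] at h3
    refine h3.congr fun k => ?_
    rw [map_sum]
  obtain ⟨K, hK⟩ := Metric.tendsto_atTop.1 h2 (ε / 2) (by positivity)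
  refine ⟨K, fun k hk => ?_⟩
  have h4 := hK k hk
  have h5 := hN N le_rfl
  rw [dist_zero_right] at h4 ⊢
  rw [dist_eq_norm, norm_sub_rev] at h5
  have h6 : T k l = T k (l - ∑ i ∈ Finset.range N, x i) +
      T k (∑ i ∈ Finset.range N, x i) := by
    rw [← map_add, sub_add_cancel]
  rw [h6]
  have h7 := norm_add_le (T k (l - ∑ i ∈ Finset.range N, x i))
    (T k (∑ i ∈ Finset.range N, x i))
  have h8 := hT k (l - ∑ i ∈ Finset.range N, x i)
  linarith

theorem sum_mem_closed {A : Type} [NormedRing A] [NormedAlgebra ℂ A] (I : Submodule ℂ A)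
    (hI : IsClosed (I : Set A)) (x : ℕ → A) (l : A) (hl : HasSum x l) (hx : ∀ i, x i ∈ I) :
    l ∈ I := by
  refine hI.mem_of_tendsto hl.tendsto_sum_nat (Eventually.of_forall fun N => ?_)
  exact sum_mem fun i _ => hx i

theorem pf_DEC : T_DEC := by
  intro A _ _ _ c d hc hd hcc hdd I hI hid hI2 f hf
  have step : ∀ (i : ℕ) (x : I), ∃ y : I, ∃ m n : ℕ, (y : A) = c m * x * d n ∧
      ‖(y : A)‖ ≤ (1 / 2) ^ i := by
    intro i x
    obtain ⟨m, n, h⟩ := hI2 x x.2 ((1 / 2) ^ i) (by positivity)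
    exact ⟨⟨c m * x * d n, (hid _ (hid _ x.2 (c m)).2 (d n)).1⟩, m, n, rfl, h⟩
  choose g m n hg1 hg2 using step
  obtain ⟨F, hF0', hF1'⟩ : ∃ F : ℕ → I, F 0 = ⟨f, hf⟩ ∧ ∀ i, F (i + 1) = g i (F i) :=
    ⟨fun i => Nat.rec ⟨f, hf⟩ (fun i x => g i x) i, rfl, fun _ => rfl⟩
  have hF0 : (F 0 : A) = f := by rw [hF0']
  have hF1 : ∀ i, (F (i + 1) : A) = c (m i (F i)) * F i * d (n i (F i)) := fun i => by
    rw [hF1' i]
    exact hg1 i (F i)
  have hF2 : ∀ i, ‖(F (i + 1) : A)‖ ≤ (1 / 2) ^ i := fun i => by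
    rw [hF1' i]
    exact hg2 i (F i)
  have hFn : ∀ i, ‖(F i : A)‖ ≤ (‖f‖ + 2) * (1 / 2) ^ i := by
    intro i
    cases i with
    | zero =>
      rw [hF0, pow_zero, mul_one]
      linarith
    | succ i =>
      refine (hF2 i).trans ?_
      have h1 : (0 : ℝ) ≤ (1 / 2) ^ i := by positivity
      have h2 := norm_nonneg f
      rw [pow_succ]
      nlinarith
  have hgeo : Summable fun i : ℕ => 2 * ((‖f‖ + 2) * (1 / 2 : ℝ) ^ i) :=
    ((summable_geometric_of_lt_one (by norm_num) (by norm_num)).mul_left _).mul_left _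
  have hcmul : ∀ (k : ℕ) (x : A), ‖c k * x‖ ≤ ‖x‖ := fun k x =>
    (norm_mul_le _ _).trans (mul_le_of_le_one_left (norm_nonneg _) (hc k))
  have hdmul : ∀ (k : ℕ) (x : A), ‖x * d k‖ ≤ ‖x‖ := fun k x =>
    (norm_mul_le _ _).trans (mul_le_of_le_one_right (norm_nonneg _) (hd k))
  have hls : Summable fun i : ℕ => (F i : A) - F i * d (n i (F i)) := by
    refine Summable.of_norm_bounded hgeo fun i => ?_
    refine (norm_sub_le _ _).trans ?_
    have h1 := hdmul (n i (F i)) (F i)
    have h2 := hFn i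
    linarith
  have hrs : Summable fun i : ℕ => (F i : A) * d (n i (F i)) -
      c (m i (F i)) * (F i * d (n i (F i))) := by
    refine Summable.of_norm_bounded hgeo fun i => ?_
    refine (norm_sub_le _ _).trans ?_
    have h1 := hdmul (n i (F i)) (F i)
    have h3 := hcmul (m i (F i)) ((F i : A) * d (n i (F i)))
    have h2 := hFn i
    linarith
  refine ⟨∑' i : ℕ, ((F i : A) - F i * d (n i (F i))), ?_,
    ∑' i : ℕ, ((F i : A) * d (n i (F i)) - c (m i (F i)) * (F i * d (n i (F i)))),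
    ?_, ?_, ?_, ?_⟩
  · refine sum_mem_closed I hI _ _ hls.hasSum fun i => ?_
    exact sub_mem (F i).2 (hid _ (F i).2 _).1
  · refine sum_mem_closed I hI _ _ hrs.hasSum fun i => ?_
    exact sub_mem (hid _ (F i).2 _).1 (hid _ (hid _ (F i).2 _).1 _).2
  · have h1 := hls.hasSum.add hrs.hasSum
    have h2 := h1.tendsto_sum_nat
    have h3 : (fun k : ℕ => ∑ i ∈ Finset.range k, (((F i : A) - F i * d (n i (F i))) +
        ((F i : A) * d (n i (F i)) - c (m i (F i)) * (F i * d (n i (F i)))))) =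
        fun k : ℕ => f - (F k : A) := by
      funext k
      have h4 : ∀ i ∈ Finset.range k, (((F i : A) - F i * d (n i (F i))) +
          ((F i : A) * d (n i (F i)) - c (m i (F i)) * (F i * d (n i (F i))))) =
          (F i : A) - (F (i + 1) : A) := fun i _ => by
        rw [hF1 i, mul_assoc]
        abel
      rw [Finset.sum_congr rfl h4, Finset.sum_range_sub' (fun i => (F i : A)), hF0]
    rw [h3] at h2
    have h5 : Tendsto (fun k : ℕ => (F k : A)) atTop (𝓝 0) := by
      refine squeeze_zero_norm hFn ?_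
      have h6 := (tendsto_pow_atTop_nhds_zero_of_lt_one (r := (1 / 2 : ℝ)) (by norm_num)
        (by norm_num)).const_mul (‖f‖ + 2)
      rwa [mul_zero] at h6
    have h7 : Tendsto (fun k : ℕ => f - (F k : A)) atTop (𝓝 (f - 0)) :=
      tendsto_const_nhds.sub h5
    rw [sub_zero] at h7
    exact tendsto_nhds_unique h7 h2
  · refine kill (fun k => AddMonoidHom.mulRight (d k)) (fun k x => hdmul k x) _ _ hls.hasSum
      fun i => ?_
    have h1 := (hdd (n i (F i))).const_mul (F i : A)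
    rw [mul_zero] at h1
    refine h1.congr fun k => ?_
    rw [AddMonoidHom.mulRight_apply]
    noncomm_ring
  · refine kill (fun k => AddMonoidHom.mulLeft (c k)) (fun k x => hcmul k x) _ _ hrs.hasSum
      fun i => ?_
    have h1 := (hcc (m i (F i))).mul_const ((F i : A) * d (n i (F i)))
    rw [zero_mul] at h1
    refine h1.congr fun k => ?_
    rw [AddMonoidHom.coe_mulLeft]
    noncomm_ring

end Pool.Agent.H5.L1C
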