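import Pool.Agent.H14.L1.Targets

/-!
A probability with full support (row PRB).
-/

set_option autoImplicit false

namespace Pool.Agent.H5.L1C

open Pool.Agent.H14.L1 Filter Topology

theorem pf_PRB : T_PRB := by
  intro G _ _
  have : Encodable G := Encodable.ofCountable G
  obtain ⟨f, hf, c, hc, -⟩ := posSumOfEncodable (ε := 1) one_pos G
  have hc0 : 0 < c := by
    obtain ⟨x⟩ := (inferInstance : Nonempty G)
    exact (hf x).trans_le (le_hasSum hc x fun y _ => (hf y).le)
  refine ⟨fun x => f x / c, fun x => div_pos (hf x) hc0, ?_⟩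
  have h := hc.div_const c
  rwa [div_self hc0.ne'] at h

end Pool.Agent.H5.L1C
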